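import Pool.Agent.H30.GMC.StT

/-!
# GMC, module JACO: every nonempty open set contains a closed point
-/

set_option autoImplicit false

open AlgebraicGeometry CategoryTheory FCB MvPolynomial

namespace GMC

theorem jaco_thm : S_JACO := by
  intro T s _ U hU hne
  have : JacobsonSpace T := LocallyOfFiniteType.jacobsonSpace s
  obtain ⟨x, hx, hc⟩ := nonempty_inter_closedPoints hne hU.isLocallyClosed
  exact ⟨x, hx, hc⟩

end GMC
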