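import Pool.Agent.H30.GMC.StT
import Pool.Agent.H66.FCB.PMOD

/-!
# GMC, module RATB: sums, products and constants of ratios
-/

open AlgebraicGeometry CategoryTheory FCB MvPolynomial Opposite TopologicalSpace

set_option backward.isDefEq.respectTransparency.types false

namespace GMC

namespace RATB

/-- the value of the constant `z` at a point of projective space -/
lemma const_value (n : ℕ) (x : Proj (grd n)) (i : Fin (n + 1))
    (hi : (X i : MvPolynomial (Fin (n + 1)) ℂ) ∉
      (show ProjectiveSpectrum (grd n) from x).asHomogeneousIdeal) (z : ℂ)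
    (h0 : (C z : MvPolynomial (Fin (n + 1)) ℂ) ∈ grd n 0)
    (h1 : (1 : MvPolynomial (Fin (n + 1)) ℂ) ∈ grd n 0)
    (hn : (1 : MvPolynomial (Fin (n + 1)) ℂ) ∈
      (HomogeneousIdeal.toIdeal (ProjectiveSpectrum.asHomogeneousIdeal x)).primeCompl) :
    (Proj.stalkIso (grd n) x).hom.hom ((Proj (grd n)).presheaf.germ ⊤ x trivial
      ((Proj.toSpecZero (grd n) ≫ Spec.map (CommRingCat.ofHom (algebraMap ℂ (grd n 0)))).appTop.hom
        ((Scheme.ΓSpecIso (.of ℂ)).inv.hom z))) =
      HomogeneousLocalization.mk ⟨0, ⟨C z, h0⟩, ⟨1, h1⟩, hn⟩ := by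
  have hx : x ∈ Proj.basicOpen (grd n) (X i : MvPolynomial (Fin (n + 1)) ℂ) := hi
  have e1 := PMOD.gen (Proj.toSpecZero (grd n)) (CommRingCat.ofHom (algebraMap ℂ (grd n 0)))
    (Proj.basicOpen (grd n) (X i : MvPolynomial (Fin (n + 1)) ℂ))
  have e2 := PMOD.tsz (grd n) (X i : MvPolynomial (Fin (n + 1)) ℂ)
    (isHomogeneous_X ℂ i : (X i : MvPolynomial (Fin (n + 1)) ℂ) ∈ grd n 1) one_pos
  rw [e2] at e1
  have e3 := congrArg (fun m => m.hom z) e1
  have e4 : (Proj (grd n)).presheaf.germ ⊤ x trivial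
      ((Proj.toSpecZero (grd n) ≫ Spec.map (CommRingCat.ofHom (algebraMap ℂ (grd n 0)))).appTop.hom
        ((Scheme.ΓSpecIso (.of ℂ)).inv.hom z)) =
      (Proj (grd n)).presheaf.germ _ x hx
        ((Proj (grd n)).presheaf.map
          (homOfLE le_top : Proj.basicOpen (grd n) (X i : MvPolynomial (Fin (n + 1)) ℂ) ⟶ ⊤).op
        ((Proj.toSpecZero (grd n) ≫
          Spec.map (CommRingCat.ofHom (algebraMap ℂ (grd n 0)))).appTop.hom
        ((Scheme.ΓSpecIso (.of ℂ)).inv.hom z))) := by
    exact (TopCat.Presheaf.germ_res_apply (Proj (grd n)).presheaf _ x hx _).symm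
  rw [e4]
  have e5 : ((Proj (grd n)).presheaf.map
          (homOfLE le_top : Proj.basicOpen (grd n) (X i : MvPolynomial (Fin (n + 1)) ℂ) ⟶ ⊤).op
        ((Proj.toSpecZero (grd n) ≫
          Spec.map (CommRingCat.ofHom (algebraMap ℂ (grd n 0)))).appTop.hom
        ((Scheme.ΓSpecIso (.of ℂ)).inv.hom z))) =
      (Proj.awayToSection (grd n) (X i : MvPolynomial (Fin (n + 1)) ℂ)).hom
        (HomogeneousLocalization.fromZeroRingHom (grd n) _ (algebraMap ℂ (grd n 0) z)) := e3
  rw [e5]
  refine (Proj.stalkIso'_germ (grd n) _ x hx _).trans ?_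
  change HomogeneousLocalization.mapId (grd n) _
    (HomogeneousLocalization.fromZeroRingHom (grd n) _ (algebraMap ℂ (grd n 0) z)) = _
  rfl

/-- the homomorphism of the local ring to the function field -/
noncomputable def psi {T : Scheme.{0}} [IsIntegral T] {n : ℕ} (h : T ⟶ PS n)
    (x : ProjectiveSpectrum (grd n)) (hx : h (genericPoint T) = x) :
    HomogeneousLocalization.AtPrime (grd n) x.asHomogeneousIdeal.toIdeal →+* T.functionField :=
  hx ▸ ((h.stalkMap (genericPoint T)).hom.comp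
    (Proj.stalkIso (grd n) (h (genericPoint T))).inv.hom)

lemma isRatio_iff {T : Scheme.{0}} [IsIntegral T] {n : ℕ} (h : T ⟶ PS n)
    (x : ProjectiveSpectrum (grd n)) (hx : h (genericPoint T) = x)
    (A B : MvPolynomial (Fin (n + 1)) ℂ) (f : T.functionField) :
    IsRatio h A B f ↔ ∃ (d : ℕ) (hA : A ∈ grd n d) (hB : B ∈ grd n d)
      (hn : B ∈ x.asHomogeneousIdeal.toIdeal.primeCompl),
      f = psi h x hx (HomogeneousLocalization.mk ⟨d, ⟨A, hA⟩, ⟨B, hB⟩, hn⟩) := by
  subst hx
  exact Iff.rfl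

end RATB

theorem ratb_thm (hPSB : S_PSB) : S_RATB := by
  intro T _ n h
  obtain ⟨hprime, -, hX, -⟩ := hPSB n
  have hp := hprime (h (genericPoint T))
  have hiff := RATB.isRatio_iff h (h (genericPoint T)) rfl
  refine ⟨?_, ?_, ?_⟩
  · intro A B A' B' f f' h1 h2
    obtain ⟨d, hA, hB, hn, rfl⟩ := (hiff _ _ _).1 h1
    obtain ⟨d', hA', hB', hn', rfl⟩ := (hiff _ _ _).1 h2
    constructor
    · refine (hiff _ _ _).2 ⟨d + d', SetLike.mul_mem_graded hA hA', SetLike.mul_mem_graded hB hB',
        mul_mem hn hn', ?_⟩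
      rw [← map_mul]
      rfl
    · have hs : A' * B ∈ grd n (d + d') := by
        have := SetLike.mul_mem_graded (A := grd n) hA' hB
        rwa [add_comm d' d] at this
      refine (hiff _ _ _).2 ⟨d + d', Submodule.add_mem _ (SetLike.mul_mem_graded hA hB') hs,
        SetLike.mul_mem_graded hB hB', mul_mem hn hn', ?_⟩
      rw [← map_add]
      congr 1
      rw [← HomogeneousLocalization.mk_add]
      apply HomogeneousLocalization.val_injective
      rw [HomogeneousLocalization.val_mk, HomogeneousLocalization.val_mk]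
      congr 1
      show B * A' + B' * A = A * B' + A' * B
      ring
  · intro d B hB hn
    refine (hiff _ _ _).2 ⟨d, hB, hB, hn, ?_⟩
    symm
    convert map_one (RATB.psi h (h (genericPoint T)) rfl) using 2
    apply HomogeneousLocalization.val_injective
    rw [HomogeneousLocalization.val_mk, HomogeneousLocalization.val_one]
    exact Localization.mk_self (⟨B, hn⟩ : (HomogeneousIdeal.toIdeal (ProjectiveSpectrum.asHomogeneousIdeal
      (show ProjectiveSpectrum (grd n) from h (genericPoint T)))).primeCompl)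
  · intro s hs z
    have h0 : (C z : MvPolynomial (Fin (n + 1)) ℂ) ∈ grd n 0 := isHomogeneous_C _ z
    have h1 : (1 : MvPolynomial (Fin (n + 1)) ℂ) ∈ grd n 0 := isHomogeneous_one _ _
    have hn : (1 : MvPolynomial (Fin (n + 1)) ℂ) ∉ PI (h (genericPoint T)) := fun hc =>
      hp.ne_top ((Ideal.eq_top_iff_one _).2 hc)
    refine ⟨0, h0, h1, hn, ?_⟩
    obtain ⟨i, hi⟩ := hX (h (genericPoint T))
    have hc := RATB.const_value n (h (genericPoint T)) i hi z h0 h1 hn
    have hc2 : (Proj.stalkIso (grd n) (h (genericPoint T))).inv.hom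
        (HomogeneousLocalization.mk ⟨0, ⟨C z, h0⟩, ⟨1, h1⟩, hn⟩) =
        ((Proj (grd n)).presheaf.germ ⊤ (h (genericPoint T)) trivial
      ((Proj.toSpecZero (grd n) ≫ Spec.map (CommRingCat.ofHom (algebraMap ℂ (grd n 0)))).appTop.hom
        ((Scheme.ΓSpecIso (.of ℂ)).inv.hom z))) := by
      rw [← hc]
      exact ConcreteCategory.congr_hom
        (Proj.stalkIso (grd n) (h (genericPoint T))).hom_inv_id _
    refine Eq.trans ?_ (congrArg (fun t => (h.stalkMap (genericPoint T)).hom t) hc2).symm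
    subst hs
    have e := Scheme.Hom.germ_stalkMap_apply h ⊤ (genericPoint T) trivial
      ((PSstr n).appTop.hom ((Scheme.ΓSpecIso (.of ℂ)).inv.hom z))
    refine Eq.trans ?_ e.symm
    have e2 : (homOfLE (le_top : (⊤ : T.Opens) ≤ ⊤)) = 𝟙 _ := Subsingleton.elim _ _
    simp only [ffHom, secHom]
    rw [e2, op_id, T.presheaf.map_id, Scheme.Hom.comp_appTop]
    rfl

end GMC
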